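import Pool.Agent.Run7.h634.HC.Defs
import Pool.Agent.Run7.h634.Mur.LDefs

/-!
# The parity law for Murre's conjecture (B): definitions
-/

set_option autoImplicit false

open CategoryTheory AlgebraicGeometry

universe u v w

namespace Pool.Agent.Run7.H634.PB

open Pool.Agent.H914 Pool.Agent.H914.VarClass Pool.Agent.H914.VarClass.Obj Pool.Agent.W492.BB
  Pool.Agent.W550.Corr Pool.Agent.TH133

variable {k : Type u} [Field k] {𝒱 : VarClass k} {C : TheoryData.{u, v, 0} 𝒱 ℚ}
  {K : Type w} [Field K] (H : WeilTheoryData.{u, v, w} C K)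

/-- `Z` is a curve with a Chow-Kunneth decomposition `ρ` such that `ρ 1` acts as zero on the
fundamental class and the self-intersection number `q` of `ρ 1` on `Z × Z` is not zero. For a curve
of genus `g ≥ 1` with a point `z` and `ρ 0 = z × Z`, `ρ 2 = Z × z`, `ρ 1 = Δ - ρ 0 - ρ 2` this
number is `-2 g`. -/
structure IsTestCurve (Z : 𝒱.Obj) (ρ : ℕ → C.A (Z.prod Z)) (q : ℚ) : Prop where
  dim : Z.dim = 1
  ck : IsCK H Z ρ
  one : C.act (ρ 1) 1 = 0
  deg : HasDegree C (ρ 1 * ρ 1) q
  ne : q ≠ 0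

/-- `π (2 i + e)` acts as zero on `CH^i(X)` for all varieties `X` and all Chow-Kunneth
decompositions `π`. -/
def KillsIn (e i : ℕ) : Prop :=
  ∀ (X : 𝒱.Obj) (π : ℕ → C.A (X.prod X)), IsCK H X π → ∀ x : C.A X, C.Deg i x →
    C.act (π (2 * i + e)) x = 0

/-- `KillsIn e i` is true for infinitely many `i`. -/
def Often (e : ℕ) : Prop := ∀ N : ℕ, ∃ i ≥ N, KillsIn H e i

/-- For infinitely many `i` the projector `π (2 i)` acts as zero on the algebraically trivial cycles of
codimension `i`, for all varieties and all Chow-Kunneth decompositions `π`. -/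
def OftenAlg : Prop := ∀ N : ℕ, ∃ i ≥ N, ∀ (X : 𝒱.Obj) (π : ℕ → C.A (X.prod X)), IsCK H X π →
  ∀ x ∈ algPower C X 1 i, C.act (π (2 * i)) x = 0

end Pool.Agent.Run7.H634.PB
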