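import Pool.Agent.Run7.h634.PB.Defs
import Pool.Agent.Run7.h634.HC.Base
import Pool.Agent.Run7.h634.Mur.Line

/-!
# The parity law for Murre's conjecture (B)
-/

set_option autoImplicit false

open CategoryTheory AlgebraicGeometry

universe u v w

namespace Pool.Agent.Run7.H634.PB

open Pool.Agent.H914 Pool.Agent.H914.VarClass Pool.Agent.H914.VarClass.Obj Pool.Agent.W492.BB
  Pool.Agent.W550.Corr Pool.Agent.TH133 Pool.Agent.Run7.H634.HC Pool.Agent.Run7.H634.Mur

set_option linter.unusedSectionVars false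

variable {k : Type u} [Field k] {𝒱 : VarClass k} {C : TheoryData.{u, v, 0} 𝒱 ℚ}
  [hC : IsChowProj C] {K : Type w} [Field K]
  {H : WeilTheoryData.{u, v, w} C K} [hH : IsWeilProj H] {X Y Z W P : 𝒱.Obj}

include hC hH

/-- The product decomposition and an external product of classes in single components. -/
lemma act_prodCK {π : ℕ → C.A (X.prod X)} (hπ : IsCK H X π) {ρ : ℕ → C.A (Z.prod Z)}
    {j m : ℕ} {c : C.A X} {w : C.A Z} (hc : C.act (π j) c = c) (hw : C.act (ρ m) w = w) :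
    C.act (prodCK C π ρ (j + m)) (C.ext c w) = C.ext c w := by
  unfold prodCK
  rw [act_sum, Finset.sum_eq_single j]
  · rw [act_tens_ext C _ _ (fun f c => ch_comm C _ _), show j + m - j = m by omega, hc, hw]
  · intro i hi hij
    rw [act_tens_ext C _ _ (fun f c => ch_comm C _ _)]
    have h1 : C.act (π i) c = 0 := by
      rw [← hc, ← C.act_comp, hπ.orth j i (Ne.symm hij), TheoryData.act_zero]
    rw [h1]
    exact TheoryData.ext_zero_left _ _
  · intro h2
    exact absurd (Finset.mem_range.2 (by omega)) h2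

/-- The product projector is a part of the product decomposition. -/
lemma prodCK_comp {π : ℕ → C.A (X.prod X)} (hπ : IsCK H X π) {ρ : ℕ → C.A (Z.prod Z)}
    (hρ : IsCK H Z ρ) (j m : ℕ) :
    C.comp (prodCK C π ρ (j + m)) (tens C (π j) (ρ m)) = tens C (π j) (ρ m) := by
  unfold prodCK
  rw [sum_comp, Finset.sum_eq_single j]
  · rw [tens_comp', show j + m - j = m by omega, hπ.idem, hρ.idem]
  · intro i hi hij
    rw [tens_comp', hπ.orth i j hij, tens_zero_left]
  · intro h2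
    exact absurd (Finset.mem_range.2 (by omega)) h2

/-- The core of the law. -/
lemma core (hBS : BlochSrinivas C) {ρ : ℕ → C.A (Z.prod Z)} {q : ℚ} (hZ : IsTestCurve H Z ρ q)
    {π : ℕ → C.A (X.prod X)} (hπ : IsCK H X π) {i j : ℕ} {c : C.A X} (hcm : c ∈ C.gr X i)
    (hc : C.act (π j) c = c)
    (Hgen : ∀ w ∈ C.gr Z 1, HasDegree C w 0 → C.act (dualCK C ρ 1) w = w → C.ext c w = 0)
    (Hcl : ∀ y ∈ C.gr (X.prod Z) i, C.act (prodCK C π ρ (j + 1)) y = 0) : c = 0 := by
  have hZ1 := hZ.dim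
  have hd1 : dualCK C ρ 1 = tp C (ρ 1) := by
    unfold dualCK
    rw [if_pos (by omega), hZ1]
  have hp1 : ρ 1 ∈ C.gr (Z.prod Z) 1 := by
    have h1 : ρ 1 ∈ C.gr (Z.prod Z) Z.dim := hZ.ck.deg 1
    rw [hZ1] at h1
    exact_mod_cast h1
  have hidem : C.comp (tp C (ρ 1)) (tp C (ρ 1)) = tp C (ρ 1) := by
    rw [← hd1]
    exact (hZ.ck.dual).idem 1
  set p := ρ 1 with hp
  set x := C.pull (fst (X.prod Z) Z) (C.pull (fst X Z) c) * C.pull (t23 X Z Z) p with hx
  have hxm : x ∈ C.gr ((X.prod Z).prod Z) (i + 1) :=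
    C.mul_mem (C.pull_mem _ (C.pull_mem _ hcm)) (C.pull_mem _ hp1)
  have hsnd : ∀ w : C.A Z, C.pull (snd (X.prod Z) Z) w = C.pull (t23 X Z Z) (C.pull (snd Z Z) w) := by
    intro w
    rw [← C.pull_comp, t23_snd]
  have hw1 : ∀ w ∈ C.gr Z 1, C.act (tp C p) w ∈ C.gr Z 1 := fun w hw => by
    have h1 : tp C p ∈ C.gr (Z.prod Z) Z.dim := tp_mem C (by rw [hZ1]; exact_mod_cast hp1)
    exact act_mem0 C h1 hw
  have hw2 : ∀ w ∈ C.gr Z 1, HasDegree C (C.act (tp C p) w) 0 := fun w hw => by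
    have h1 : C.push (snd Z Z) p = 0 := by
      have h2 := hZ.one
      rwa [TheoryData.act_apply, map_one, mul_one] at h2
    rw [act_tp, hasDegree_push_iff, ← hasDegree_push_iff (snd Z Z), C.proj_right, h1, zero_mul]
    exact Pool.Agent.TH133.hasDegree_zero
  have hw3 : ∀ w : C.A Z, C.act (dualCK C ρ 1) (C.act (tp C p) w) = C.act (tp C p) w := by
    intro w
    rw [hd1, ← C.act_comp, hidem]
  have h1 : ∀ w : C.A Z, C.Deg 1 w →
      C.down (fst (X.prod Z) Z) (C.mul x (C.up (snd (X.prod Z) Z) w)) = 0 := by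
    intro w hw
    change C.push (fst (X.prod Z) Z) (x * C.pull (snd (X.prod Z) Z) w) = 0
    rw [hx, hsnd, mul_assoc, ← map_mul, C.proj_left, push_fst_t23, ← act_tp]
    exact Hgen _ (hw1 w hw) (hw2 w hw) (hw3 w)
  have h2 := hBS (X.prod Z) Z hZ1 (i + 1) x hxm h1
  let L : C.A ((X.prod Z).prod Z) →ₗ[ℚ] C.A X :=
    C.actL (π j) ∘ₗ C.push (fst X Z) ∘ₗ C.push (fst (X.prod Z) Z) ∘ₗ
      LinearMap.mulRight ℚ (C.pull (t23 X Z Z) p)
  have hL : ∀ z, L z = C.act (π j)
      (C.push (fst X Z) (C.push (fst (X.prod Z) Z) (z * C.pull (t23 X Z Z) p))) :=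
    fun _ => rfl
  have h3 : ∀ z ∈ Submodule.span ℚ {z : C.A ((X.prod Z).prod Z) | ∃ (y : C.A (X.prod Z))
      (w : C.A Z), C.Deg ((i : ℤ) + 1 - 1) y ∧ C.Deg 1 w ∧ z = C.ext y w}, L z = 0 := by
    intro z hz
    induction hz using Submodule.span_induction with
    | mem z hz =>
      obtain ⟨y, w, hy, hw, rfl⟩ := hz
      have hy' : y ∈ C.gr (X.prod Z) i := by
        have : C.Deg ((i : ℤ) + 1 - 1) y := hy
        rwa [add_sub_cancel_right] at this
      have h4 : C.push (fst X Z) (C.push (fst (X.prod Z) Z) (C.ext y w * C.pull (t23 X Z Z) p)) =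
          C.act (tp C y) (C.act (tp C p) w) := by
        rw [TheoryData.ext, hsnd, mul_assoc, ← map_mul, C.proj_left, push_fst_t23,
          ch_comm C (C.pull (snd Z Z) w), ← act_tp, ← act_tp]
      have h5 : C.comp (tp C p) (C.comp (tp C y) (π j)) = tp C (C.act (tens C (π j) p) y) := by
        have h6 : C.act (tens C (π j) p) y = C.comp (C.comp (tp C (π j)) y) p :=
          act_tens C (fun a b => ch_comm C a b) _ _ _
        rw [h6, tp_comp C (fun a b => ch_comm C a b), tp_comp C (fun a b => ch_comm C a b), tp_tp]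
      have h6 : C.act (tens C (π j) p) y = 0 := by
        rw [← prodCK_comp hπ hZ.ck j 1, C.act_comp, Hcl y hy', TheoryData.act_map_zero]
      rw [hL, h4, ← C.act_comp, ← C.act_comp, h5, h6, tp_zero, TheoryData.act_zero]
    | zero => exact map_zero L
    | add z z' _ _ hz hz' => rw [map_add, hz, hz', add_zero]
    | smul r z _ hz => rw [map_smul, hz, smul_zero]
  have h4 := h3 x h2
  rw [hL, hx, mul_assoc, ← map_mul, C.proj_left, push_fst_t23] at h4
  change C.act (π j) (C.push (fst X Z) (C.ext c (C.push (fst Z Z) (p * p)))) = 0 at h4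
  rw [push_fst_ext c ((hasDegree_push_iff _ _ _).2 hZ.deg)] at h4
  have h5 : q • c = 0 := by
    rw [← hc]
    have h6 : C.act (π j) (q • c) = q • C.act (π j) c := by
      rw [TheoryData.act_apply, TheoryData.act_apply, map_smul, mul_smul_comm, map_smul]
    rw [← h6]
    exact h4
  rw [← one_smul ℚ c, ← inv_mul_cancel₀ hZ.ne, mul_smul, h5, smul_zero]

lemma smul_act (Γ : C.A (X.prod Y)) (q : ℚ) (x : C.A X) : C.act Γ (q • x) = q • C.act Γ x := by
  rw [TheoryData.act_apply, TheoryData.act_apply, map_smul, mul_smul_comm, map_smul]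

/-- **The three-term law.** -/
theorem law (hBS : BlochSrinivas C) {ρ : ℕ → C.A (Z.prod Z)} {q : ℚ} (hZ : IsTestCurve H Z ρ q)
    (e i : ℕ) (h1 : KillsIn H (e + 1) (i + 1)) (h2 : KillsIn H (e + 3) i) :
    KillsIn H (e + 2) i := by
  intro X π hπ a ha
  have hcm : C.act (π (2 * i + (e + 2))) a ∈ C.gr X i := act_mem0 C (hπ.deg _) ha
  have hc : C.act (π (2 * i + (e + 2))) (C.act (π (2 * i + (e + 2))) a) =
      C.act (π (2 * i + (e + 2))) a := by rw [← C.act_comp, hπ.idem]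
  refine core hBS hZ hπ hcm hc (fun w hw _ hww => ?_) (fun y hy => ?_)
  · have h3 := act_prodCK hπ (ρ := dualCK C ρ) hc hww
    rw [← h3]
    have h4 := h1 (X.prod Z) _ (hπ.prod hZ.ck.dual)
      (C.ext (C.act (π (2 * i + (e + 2))) a) w) (by
        have := ext_mem' hcm hw
        exact_mod_cast this)
    rwa [show 2 * (i + 1) + (e + 1) = 2 * i + (e + 2) + 1 by ring] at h4
  · have h4 := h2 (X.prod Z) _ (hπ.prod hZ.ck) y hy
    rwa [show 2 * i + (e + 3) = 2 * i + (e + 2) + 1 by ring] at h4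

/-- The law for the defect one. -/
theorem law_one (hBS : BlochSrinivas C) {ρ : ℕ → C.A (Z.prod Z)} {q : ℚ}
    (hZ : IsTestCurve H Z ρ q) (i : ℕ)
    (h1 : ∀ (X : 𝒱.Obj) (π : ℕ → C.A (X.prod X)), IsCK H X π →
      ∀ x ∈ algPower C X 1 (i + 1), C.act (π (2 * (i + 1))) x = 0)
    (h2 : KillsIn H 2 i) : KillsIn H 1 i := by
  intro X π hπ a ha
  have hcm : C.act (π (2 * i + 1)) a ∈ C.gr X i := act_mem0 C (hπ.deg _) ha
  have hc : C.act (π (2 * i + 1)) (C.act (π (2 * i + 1)) a) = C.act (π (2 * i + 1)) a := by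
    rw [← C.act_comp, hπ.idem]
  refine core hBS hZ hπ hcm hc (fun w hw h0 hww => ?_) (fun y hy => ?_)
  · have h3 := act_prodCK hπ (ρ := dualCK C ρ) hc hww
    rw [← h3]
    have h4 := h1 (X.prod Z) _ (hπ.prod hZ.ck.dual) (C.ext (C.act (π (2 * i + 1)) a) w) ?_
    · rwa [show 2 * (i + 1) = 2 * i + 1 + 1 by ring] at h4
    · refine Submodule.subset_span ⟨Z, w, C.push (Obj.lift (snd X Z) (𝟙 (X.prod Z)))
        (C.pull (fst X Z) (C.act (π (2 * i + 1)) a)),
        CurveCycle.one Z w hZ.dim (by exact_mod_cast hw) h0, ?_, ?_⟩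
      · have h5 := C.push_mem (Obj.lift (snd X Z) (𝟙 (X.prod Z)))
          (C.pull_mem (fst X Z) hcm)
        have e5 : (i : ℤ) + 1 * (((Z.prod (X.prod Z)).dim : ℤ) - (X.prod Z).dim) =
            ((i + 1 : ℕ) : ℤ) := by
          rw [dim_prod, hZ.dim]
          push_cast
          ring
        rw [e5] at h5
        exact h5
      · generalize C.act (π (2 * i + 1)) a = c
        rw [TheoryData.act_apply, ← C.proj_right, ← C.push_comp, lift_snd, C.push_id,
          ← C.pull_comp, lift_fst]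
        rfl
  · have h4 := h2 (X.prod Z) _ (hπ.prod hZ.ck) y hy
    rwa [show 2 * i + 2 = 2 * i + 1 + 1 by ring] at h4

/-- The shift by a projective line. -/
lemma shift {x : C.A P} (h : IsLine C P x) {e i : ℕ} (h1 : KillsIn H e (i + 1)) :
    KillsIn H e i := by
  intro X π hπ y hy
  apply h.step (H := H)
  have h2 := h1 (X.prod P) _ (hπ.prod (h.ck (H := H))) (C.ext y x) (by
    have := ext_mem' (C := C) hy h.deg
    exact_mod_cast this)
  rwa [show 2 * (i + 1) + e = 2 * i + e + 2 by ring] at h2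

lemma killsIn_of_often {x : C.A P} (h : IsLine C P x) {e : ℕ} (h1 : Often H e) (i : ℕ) :
    KillsIn H e i := by
  obtain ⟨j, hj, h2⟩ := h1 i
  obtain ⟨m, rfl⟩ := Nat.exists_eq_add_of_le hj
  clear hj
  induction m with
  | zero => exact h2
  | succ m ih => exact ih (shift h h2)

lemma b0_iff : (∀ X : 𝒱.Obj, MurreB0 H X) ↔ ∀ e, 1 ≤ e → ∀ i, KillsIn H e i := by
  constructor
  · intro h e he i X π hπ x hx
    exact (murreB0_iff (H := H) X).1 (h X) π hπ i _ x hx (by omega)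
  · intro h X
    rw [murreB0_iff]
    intro π hπ i j x hx hj
    have h1 := h (j - 2 * i) (by omega) i X π hπ x hx
    rwa [show 2 * i + (j - 2 * i) = j by omega] at h1

/-- The odd defects. -/
theorem odd (hBS : BlochSrinivas C) {ρ : ℕ → C.A (Z.prod Z)} {q : ℚ} (hZ : IsTestCurve H Z ρ q)
    {x : C.A P} (h : IsLine C P x) (ho : ∀ e, e % 2 = 1 → Often H e) :
    ∀ X : 𝒱.Obj, MurreB0 H X := by
  rw [b0_iff]
  intro e he i
  by_cases h1 : e % 2 = 1
  · exact killsIn_of_often h (ho e h1) i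
  · obtain ⟨e, rfl⟩ : ∃ f, e = f + 2 := ⟨e - 2, by omega⟩
    exact law hBS hZ e i (killsIn_of_often h (ho _ (by omega)) _)
      (killsIn_of_often h (ho _ (by omega)) _)

/-- The even defects. -/
theorem even (hBS : BlochSrinivas C) {ρ : ℕ → C.A (Z.prod Z)} {q : ℚ} (hZ : IsTestCurve H Z ρ q)
    {x : C.A P} (h : IsLine C P x) (ha : OftenAlg H) (ho : ∀ e, 2 ≤ e → e % 2 = 0 → Often H e) :
    ∀ X : 𝒱.Obj, MurreB0 H X := by
  have h1 : Often H 1 := by
    intro N
    obtain ⟨i, hi, h2⟩ := ha (N + 1)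
    obtain ⟨i, rfl⟩ : ∃ j, i = j + 1 := ⟨i - 1, by omega⟩
    exact ⟨i, by omega, law_one hBS hZ i h2 (killsIn_of_often h (ho 2 le_rfl rfl) i)⟩
  rw [b0_iff]
  intro e he i
  by_cases h2 : e % 2 = 0
  · exact killsIn_of_often h (ho e (by omega) h2) i
  · by_cases h3 : e = 1
    · rw [h3]
      exact killsIn_of_often h h1 i
    · obtain ⟨e, rfl⟩ : ∃ f, e = f + 2 := ⟨e - 2, by omega⟩
      exact law hBS hZ e i (killsIn_of_often h (ho _ (by omega) (by omega)) _)
        (killsIn_of_often h (ho _ (by omega) (by omega)) _)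

/-- **The parity law.** -/
theorem main (hBS : BlochSrinivas C) {ρ : ℕ → C.A (Z.prod Z)} {q : ℚ} (hZ : IsTestCurve H Z ρ q)
    {x : C.A P} (h : IsLine C P x) :
    (∀ e i : ℕ, KillsIn H (e + 1) (i + 1) → KillsIn H (e + 3) i → KillsIn H (e + 2) i) ∧
    ((∀ X : 𝒱.Obj, MurreB0 H X ∧ MurreC H X) ↔ ∀ e, e % 2 = 1 → Often H e) ∧
    (OftenAlg H → (∀ e, 2 ≤ e → e % 2 = 0 → Often H e) → ∀ X : 𝒱.Obj, MurreB0 H X ∧ MurreC H X) := by
  refine ⟨law hBS hZ, ⟨fun h1 e he N => ⟨N, le_rfl, ?_⟩, fun ho X => ?_⟩, fun ha ho X => ?_⟩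
  · exact b0_iff.1 (fun X => (h1 X).1) e (by omega) N
  · have h2 := odd hBS hZ h ho
    exact ⟨h2 X, murreC_of_B0 X (h2 _)⟩
  · have h2 := even hBS hZ h ha ho
    exact ⟨h2 X, murreC_of_B0 X (h2 _)⟩

end Pool.Agent.Run7.H634.PB
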